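import Pool.Agent.Y885.LD5

/-!
# Weighted level of distribution, almost the full range: the residue is arbitrary up to very few elements of an
arbitrary set which meets every interval `[x, l x]`

From Mathlib: `ArithmeticFunction.vonMangoldt`: the function `Λ`; `Nat.totient`: Euler's function.
-/

set_option autoImplicit false

namespace Pool.Agent.Results.MP_188a10_nt.ElementsOfAnySet

open Finset

/-- `E(x; m, a) = ψ(x; m, a) - x / φ(m)`, where `ψ(x; m, a)` is the sum of `Λ(n)` over the `n ≤ x` with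
`n ≡ a (mod m)`. -/
noncomputable def E (x m a : ℕ) : ℝ :=
  ∑ n ∈ (Icc 1 x).filter (fun n : ℕ => n ≡ a [MOD m]), ArithmeticFunction.vonMangoldt n - (x : ℝ) / Nat.totient m

/-- `τ(m)`: the number of the divisors of `m`. In particular `τ(m) ^ 2 ≥ 3 ^ ν(m)`, where `ν(m)` is the number of
the prime factors of `m`. -/
noncomputable def τ (m : ℕ) : ℝ := m.divisors.card

/-- The sum of `λ(m) E(x(m); m, a)` over the `m ≤ Q` coprime to `a`. -/
noncomputable def weighted (lam : ℕ → ℝ) (x : ℕ → ℕ) (Q a : ℕ) : ℝ :=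
  ∑ m ∈ (Icc 1 Q).filter (fun m : ℕ => a.Coprime m), lam m * E (x m) m a

/-- For all `l ≥ 2`, `P ≥ 1`, `T` and `U` there is a constant `C` such that for all `H` and `B` there are `C'` and `N₀`
with the following property. Let `A` be an arbitrary set of integers which contains an element of every interval
`[x, l x]`, `x ≥ 1` (the constants do not depend on `A`). Let `N ≥ N₀`, let `0 ≤ h ≤ B N` be an arbitrary integer, and let
`Q ≤ N / exp (C' (log log N) ^ 2)`; thus `Q = N ^ (1 - o(1))`. Let `r ≤ log ^ T N`, let the coefficients `λ_i` (`i < r`)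
satisfy `|λ_i(m)| ≤ (τ(m) log N) ^ T` (e.g. `|λ_i(m)| ≤ 3 ^ ν(m)`, if `T = 2`), and let `x_i(m) ≤ B N` be arbitrary
functions of the modulus. Then there is a set `S` of at most `C (log log N) ^ 2` elements of `A`, all between
`log ^ H N` and `N / log ^ H N`, such that the sum of the elements of `S` is divisible by `P`, the residue `a = h + ∑ S`
is positive, and, for all `i < r`,

(1) the sum of `λ_i(m) E(x; m, a)` over the `m ≤ Q` coprime to `a` is at most `N / log ^ U N` in absolute value for ALL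
`x ≤ B N`;

(2) the sum of `λ_i(m) E(x_i(m); m, a)` over the `m ≤ Q` coprime to `a` is at most `N / log ^ U N` in absolute value. -/
theorem result (l P T U : ℕ) (hl : 2 ≤ l) (hP : 1 ≤ P) : ∃ C : ℝ, ∀ H B : ℕ, ∃ C' N₀ : ℕ,
    ∀ A : Set ℕ, (∀ x : ℕ, 1 ≤ x → ∃ a ∈ A, x ≤ a ∧ a ≤ l * x) → ∀ N : ℕ, N₀ ≤ N → ∀ h : ℕ, h ≤ B * N →
      ∀ Q : ℕ, (Q : ℝ) ≤ N / Real.exp (C' * Real.log (Real.log N) ^ 2) →
      ∀ r : ℕ, (r : ℝ) ≤ Real.log N ^ T → ∀ (lam : Fin r → ℕ → ℝ) (x : Fin r → ℕ → ℕ),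
      (∀ i m, |lam i m| ≤ (τ m * Real.log N) ^ T) → (∀ i m, x i m ≤ B * N) →
        ∃ S : Finset ℕ, (∀ a ∈ S, a ∈ A ∧ Real.log N ^ H ≤ a ∧ (a : ℝ) ≤ N / Real.log N ^ H) ∧
          (S.card : ℝ) ≤ C * Real.log (Real.log N) ^ 2 ∧ P ∣ ∑ a ∈ S, a ∧ 0 < h + ∑ a ∈ S, a ∧
          ∀ i, (∀ y : ℕ, y ≤ B * N → |weighted (lam i) (fun _ => y) Q (h + ∑ a ∈ S, a)| ≤ N / Real.log N ^ U) ∧
            |weighted (lam i) (x i) Q (h + ∑ a ∈ S, a)| ≤ N / Real.log N ^ U := by
  obtain ⟨C, hC⟩ := Pool.Agent.Y885.las_levels l P T U hl hP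
  refine ⟨C, fun H B => ?_⟩
  obtain ⟨C', N₀, h0⟩ := hC H B
  refine ⟨C', N₀, fun A hA N hN h hh Q hQ r hr lam x hlam hx => ?_⟩
  have hQ' : (Q : ℝ) * Real.exp ((C' : ℝ) * Real.log (Real.log N) ^ 2) ≤ N := by
    rwa [le_div_iff₀ (Real.exp_pos _)] at hQ
  exact h0 A hA N hN h hh Q hQ' r hr lam x hlam hx

end Pool.Agent.Results.MP_188a10_nt.ElementsOfAnySet
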