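import Mathlib
import Pool.Agent.Y826.LD.Main

/-!
# Moduli with five factors: weighted level of distribution 0.505

Let `a_j n + b_j` (`j < 5`) be five linear forms with coprime coefficients different from `0`. The primes are
equidistributed on average over all the squarefree moduli `d = q_0 q_1 q_2 q_3 q_4` with
`q_j ≤ N ^ t_j`, `t = (0.286, 0.101, 0.053, 0.042, 0.023)` (total `0.505 > 1/2`), in the residue class
`l` mod `d` with `q_j ∣ a_j l + b_j` for all `j`, with the maximum over `y ≤ N` inside the sum and with weights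
`κ ^ ν(d)`. The factors `q_j` are arbitrary (they may be primes).
-/

set_option autoImplicit false

open Finset Filter

namespace Pool.Agent.Results.MP_188a10_nt.FiveFactors

/-- the number of primes `p ≤ x` with `p ≡ l (mod d)` -/
noncomputable def primesAP (x : ℝ) (d l : ℕ) : ℕ := Set.ncard {p : ℕ | p.Prime ∧ (p : ℝ) ≤ x ∧ p ≡ l [MOD d]}

/-- the logarithmic integral from `2` -/
noncomputable def li (x : ℝ) : ℝ := ∫ t in (2 : ℝ)..x, 1 / Real.log t

/-- the error term -/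
noncomputable def E (x : ℝ) (d l : ℕ) : ℝ := (primesAP x d l : ℝ) - li x / (Nat.totient d : ℝ)

/-- the exponents; their sum is `0.505` -/
noncomputable def t : Fin 5 → ℝ := ![0.286, 0.101, 0.053, 0.042, 0.023]

theorem primesAP_eq {x : ℝ} (hx : 0 ≤ x) (d l : ℕ) : primesAP x d l = Pool.Agent.Y826.LD.primesAP x d l := by
  classical
  unfold primesAP Pool.Agent.Y826.LD.primesAP
  have hS : {p : ℕ | p.Prime ∧ (p : ℝ) ≤ x ∧ p ≡ l [MOD d]} =
      (((Icc 1 ⌊x⌋₊).filter (fun p => p.Prime ∧ p ≡ l [MOD d]) : Finset ℕ) : Set ℕ) := by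
    ext p
    simp only [Set.mem_ofPred_eq, Finset.coe_filter, Finset.mem_Icc, Nat.le_floor_iff hx]
    constructor
    · rintro ⟨h1, h2, h3⟩
      exact ⟨⟨h1.one_lt.le, h2⟩, h1, h3⟩
    · rintro ⟨⟨_, h2⟩, h1, h3⟩
      exact ⟨h1, h2, h3⟩
  rw [hS, Set.ncard_coe_finset]

theorem t_nonneg (j : Fin 5) : 0 ≤ t j := by
  fin_cases j <;> simp [t] <;> norm_num

theorem t_sum : ∑ j, t j = 101 / 200 := by
  simp [t, Fin.sum_univ_succ]
  norm_num

open Classical in
/-- Let `h j = (a, b)` (`j < 5`) be pairs of coprime integers different from `0`. For all `κ ≥ 0` and `A` there is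
`C` such that for all `N ≥ 3` and all choices of real numbers `y q` and residues `l q`: the sum of
`κ ^ ν(d) * |E(y q; d, l q)|` over the tuples `q`, `1 ≤ q j ≤ N ^ t j`, for which `d = ∏ q j` is squarefree,
`2 ≤ y q ≤ N`, `(l q, d) = 1` and `q j ∣ a * l q + b` for all `j`, is at most `C N / (log N) ^ A`. -/
theorem result (h : Fin 5 → ℤ × ℤ) (hh : ∀ j, (h j).1 ≠ 0 ∧ (h j).2 ≠ 0 ∧ IsCoprime (h j).1 (h j).2)
    (κ : ℝ) (hκ : 0 ≤ κ) (A : ℝ) :
    ∃ C : ℝ, ∀ N : ℝ, 3 ≤ N → ∀ (y : (Fin 5 → ℕ) → ℝ) (l : (Fin 5 → ℕ) → ℕ),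
      ∑ q ∈ (Fintype.piFinset (fun j => Icc 1 ⌊N ^ (t j)⌋₊)).filter (fun q => Squarefree (∏ j, q j) ∧
          2 ≤ y q ∧ y q ≤ N ∧ (l q).Coprime (∏ j, q j) ∧ ∀ j, (q j : ℤ) ∣ (h j).1 * (l q : ℤ) + (h j).2),
        κ ^ (∏ j, q j).primeFactors.card * |E (y q) (∏ j, q j) (l q)| ≤ C * (N / (Real.log N) ^ A) := by
  obtain ⟨k, hk⟩ : ∃ k : ℕ, k = ⌈κ⌉₊ := ⟨_, rfl⟩
  obtain ⟨U, hU⟩ : ∃ U : ℕ, U = ⌈A⌉₊ := ⟨_, rfl⟩
  have key := Pool.Agent.Y826.LD.s_pi 5 h hh t t_nonneg (by rw [t_sum]; norm_num)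
    (by obtain ⟨δ, hδ, hG⟩ := Pool.Agent.Y826.LD.GT5.gt5; exact ⟨δ, hδ, hG⟩) U k
  obtain ⟨N0, hN0⟩ := Filter.eventually_atTop.1 key
  set x1 := max N0 3 with hx1
  have hx13 : 3 ≤ x1 := le_max_right _ _
  have hlog1 : 0 < Real.log x1 := Real.log_pos (by linarith)
  -- comparison of the terms
  have hterm : ∀ (q : Fin 5 → ℕ) (y : ℝ) (l : ℕ), Squarefree (∏ j, q j) → 2 ≤ y →
      κ ^ (∏ j, q j).primeFactors.card * |E y (∏ j, q j) l| ≤
        Pool.Agent.Y826.Z.tau (Pool.Agent.Y826.Z.Pr q) ^ k *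
          |Pool.Agent.Y826.LD.E y (Pool.Agent.Y826.Z.Pr q) l| := by
    intro q y l hq hy
    have he : E y (∏ j, q j) l = Pool.Agent.Y826.LD.E y (Pool.Agent.Y826.Z.Pr q) l := by
      unfold E Pool.Agent.Y826.LD.E
      rw [primesAP_eq (by linarith)]
      rfl
    rw [he]
    apply mul_le_mul_of_nonneg_right _ (abs_nonneg _)
    calc κ ^ (∏ j, q j).primeFactors.card ≤ (k : ℝ) ^ (∏ j, q j).primeFactors.card :=
          pow_le_pow_left₀ hκ (by rw [hk]; exact Nat.le_ceil κ) _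
      _ ≤ Pool.Agent.Y826.Z.tau (∏ j, q j) ^ k := Pool.Agent.Y246.LD.tau_ge hq.ne_zero k
      _ = _ := rfl
  refine ⟨1 + (x1 ^ 6 * ((k : ℝ) + 1) ^ ⌊x1 ^ 6⌋₊ * (3 * x1)) * (Real.log x1) ^ U, ?_⟩
  intro N hN y l
  have hN0' : 0 < N := by linarith
  have hlog : 1 ≤ Real.log N := by
    have h1 : Real.exp 1 ≤ N := (Real.exp_one_lt_d9.le.trans (by norm_num)).trans hN
    have := Real.log_le_log (Real.exp_pos 1) h1
    rwa [Real.log_exp] at this
  have h4 : (Real.log N) ^ A ≤ (Real.log N) ^ U := by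
    rw [← Real.rpow_natCast]
    exact Real.rpow_le_rpow_of_exponent_le hlog (by rw [hU]; exact Nat.le_ceil A)
  have h5 : 0 < (Real.log N) ^ A := Real.rpow_pos_of_pos (by linarith) A
  have hfin : ∀ S : ℝ, ∀ c : ℝ, 0 ≤ c → S ≤ c * (N / (Real.log N) ^ U) → S ≤ c * (N / (Real.log N) ^ A) := by
    intro S c hc hS
    exact hS.trans (mul_le_mul_of_nonneg_left (div_le_div_of_nonneg_left hN0'.le h5 h4) hc)
  apply hfin _ _ (by positivity)
  set T := (Fintype.piFinset (fun j => Icc 1 ⌊N ^ (t j)⌋₊)).filter (fun q => Squarefree (∏ j, q j) ∧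
          2 ≤ y q ∧ y q ≤ N ∧ (l q).Coprime (∏ j, q j) ∧ ∀ j, (q j : ℤ) ∣ (h j).1 * (l q : ℤ) + (h j).2) with hT
  have hnn : 0 ≤ (x1 ^ 6 * ((k : ℝ) + 1) ^ ⌊x1 ^ 6⌋₊ * (3 * x1)) * (Real.log x1) ^ U := by positivity
  rcases le_or_gt N0 N with hbig | hsmall
  · have h1 := hN0 N hbig y l
    have h2 : ∑ q ∈ T, κ ^ (∏ j, q j).primeFactors.card * |E (y q) (∏ j, q j) (l q)| ≤
        N / (Real.log N) ^ U := by
      have h1' : ∑ q ∈ T, Pool.Agent.Y826.Z.tau (Pool.Agent.Y826.Z.Pr q) ^ k *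
          |Pool.Agent.Y826.LD.E (y q) (Pool.Agent.Y826.Z.Pr q) (l q)| ≤ N / (Real.log N) ^ U := by
        refine le_trans (le_of_eq ?_) h1
        refine Finset.sum_congr ?_ (fun _ _ => rfl)
        ext q
        simp only [hT, Finset.mem_filter]
        exact Iff.rfl
      refine le_trans ?_ h1'
      refine Finset.sum_le_sum fun q hq => ?_
      rw [hT, Finset.mem_filter] at hq
      exact hterm q (y q) (l q) hq.2.1 hq.2.2.1
    refine h2.trans ?_
    have h3 : 0 ≤ N / (Real.log N) ^ U := by positivity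
    calc N / (Real.log N) ^ U = 1 * (N / (Real.log N) ^ U) := (one_mul _).symm
      _ ≤ _ := by
          apply mul_le_mul_of_nonneg_right _ h3
          linarith
  · have hNx : N ≤ x1 := hsmall.le.trans (le_max_left _ _)
    have hq6 : ∀ q ∈ T, ((∏ j, q j : ℕ) : ℝ) ≤ x1 ^ 6 := by
      intro q hq
      rw [hT, Finset.mem_filter, Fintype.mem_piFinset] at hq
      have h1 : ∀ j, (q j : ℝ) ≤ x1 := by
        intro j
        have := (Finset.mem_Icc.1 (hq.1 j)).2
        have h2 : (q j : ℝ) ≤ N ^ (t j) := (Nat.le_floor_iff (by positivity)).1 this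
        have h3 : N ^ (t j) ≤ N ^ (1 : ℝ) := Real.rpow_le_rpow_of_exponent_le (by linarith) (by
          have := Finset.single_le_sum (f := t) (s := Finset.univ) (fun i _ => t_nonneg i) (Finset.mem_univ j)
          rw [t_sum] at this
          linarith)
        rw [Real.rpow_one] at h3
        linarith
      rw [Nat.cast_prod]
      calc ∏ j, (q j : ℝ) ≤ ∏ _j : Fin 5, x1 := Finset.prod_le_prod (fun j _ => Nat.cast_nonneg _) fun j _ => h1 j
        _ = x1 ^ 5 := by rw [Finset.prod_const, Finset.card_univ, Fintype.card_fin]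
        _ ≤ x1 ^ 6 := pow_le_pow_right₀ (by linarith) (by norm_num)
    have hbd : ∀ q ∈ T, κ ^ (∏ j, q j).primeFactors.card * |E (y q) (∏ j, q j) (l q)| ≤
        ((k : ℝ) + 1) ^ ⌊x1 ^ 6⌋₊ * (3 * x1) := by
      intro q hq
      have hq6' := hq6 q hq
      rw [hT, Finset.mem_filter] at hq
      have hpos : 0 < ∏ j, q j := Nat.pos_of_ne_zero hq.2.1.ne_zero
      have he : E (y q) (∏ j, q j) (l q) = Pool.Agent.Y826.LD.E (y q) (∏ j, q j) (l q) := by
        unfold E Pool.Agent.Y826.LD.E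
        rw [primesAP_eq (by linarith [hq.2.2.1])]
        rfl
      have h1 : |E (y q) (∏ j, q j) (l q)| ≤ 3 * x1 := by
        rw [he]
        have := Pool.Agent.Y246.LD.E_bd (l := l q) hq.2.2.1 hpos
        linarith [hq.2.2.2.1]
      have h2 : κ ^ (∏ j, q j).primeFactors.card ≤ ((k : ℝ) + 1) ^ ⌊x1 ^ 6⌋₊ := by
        calc κ ^ (∏ j, q j).primeFactors.card ≤ ((k : ℝ) + 1) ^ (∏ j, q j).primeFactors.card := by
              apply pow_le_pow_left₀ hκ
              have := Nat.le_ceil κ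
              rw [hk]
              linarith
          _ ≤ ((k : ℝ) + 1) ^ ⌊x1 ^ 6⌋₊ := by
              apply pow_le_pow_right₀
              · have : (0 : ℝ) ≤ k := Nat.cast_nonneg k
                linarith
              · calc (∏ j, q j).primeFactors.card ≤ ∏ j, q j := by
                      calc (∏ j, q j).primeFactors.card ≤ (Icc 1 (∏ j, q j)).card := by
                            apply Finset.card_le_card
                            intro p hp
                            rw [Finset.mem_Icc]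
                            exact ⟨(Nat.prime_of_mem_primeFactors hp).one_lt.le,
                              Nat.le_of_dvd hpos (Nat.dvd_of_mem_primeFactors hp)⟩
                        _ = ∏ j, q j := by rw [Nat.card_Icc, Nat.add_sub_cancel]
                  _ ≤ ⌊x1 ^ 6⌋₊ := Nat.le_floor hq6'
      exact mul_le_mul h2 h1 (abs_nonneg _) (by positivity)
    have hcard : (T.card : ℝ) ≤ x1 ^ 6 := by
      have h1 : T.card ≤ (Fintype.piFinset (fun _ : Fin 5 => Icc 1 ⌊x1⌋₊)).card := by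
        apply Finset.card_le_card
        intro q hq
        rw [hT, Finset.mem_filter, Fintype.mem_piFinset] at hq
        rw [Fintype.mem_piFinset]
        intro j
        have h0 := Finset.mem_Icc.1 (hq.1 j)
        rw [Finset.mem_Icc]
        refine ⟨h0.1, h0.2.trans (Nat.floor_le_floor ?_)⟩
        have h3 : N ^ (t j) ≤ N ^ (1 : ℝ) := Real.rpow_le_rpow_of_exponent_le (by linarith) (by
          have := Finset.single_le_sum (f := t) (s := Finset.univ) (fun i _ => t_nonneg i) (Finset.mem_univ j)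
          rw [t_sum] at this
          linarith)
        rw [Real.rpow_one] at h3
        linarith
      rw [Fintype.card_piFinset_const, Nat.card_Icc, Nat.add_sub_cancel] at h1
      calc (T.card : ℝ) ≤ ((⌊x1⌋₊ ^ 5 : ℕ) : ℝ) := by exact_mod_cast h1
        _ = (⌊x1⌋₊ : ℝ) ^ 5 := by push_cast; rfl
        _ ≤ x1 ^ 5 := pow_le_pow_left₀ (Nat.cast_nonneg _) (Nat.floor_le (by linarith)) 5
        _ ≤ x1 ^ 6 := pow_le_pow_right₀ (by linarith) (by norm_num)
    have h1 : ∑ q ∈ T, κ ^ (∏ j, q j).primeFactors.card * |E (y q) (∏ j, q j) (l q)| ≤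
        x1 ^ 6 * (((k : ℝ) + 1) ^ ⌊x1 ^ 6⌋₊ * (3 * x1)) := by
      calc _ ≤ ∑ q ∈ T, ((k : ℝ) + 1) ^ ⌊x1 ^ 6⌋₊ * (3 * x1) := Finset.sum_le_sum hbd
        _ = T.card * (((k : ℝ) + 1) ^ ⌊x1 ^ 6⌋₊ * (3 * x1)) := by rw [Finset.sum_const, nsmul_eq_mul]
        _ ≤ _ := mul_le_mul_of_nonneg_right hcard (by positivity)
    refine h1.trans ?_
    have h2 : 1 / (Real.log x1) ^ U ≤ N / (Real.log N) ^ U := by
      apply div_le_div₀ (by linarith) (by linarith) (by positivity)
      exact pow_le_pow_left₀ (by linarith) (Real.log_le_log hN0' hNx) U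
    have h3 : 0 ≤ N / (Real.log N) ^ U := by positivity
    calc x1 ^ 6 * (((k : ℝ) + 1) ^ ⌊x1 ^ 6⌋₊ * (3 * x1)) =
          ((x1 ^ 6 * ((k : ℝ) + 1) ^ ⌊x1 ^ 6⌋₊ * (3 * x1)) * (Real.log x1) ^ U) * (1 / (Real.log x1) ^ U) := by
          field_simp
      _ ≤ ((x1 ^ 6 * ((k : ℝ) + 1) ^ ⌊x1 ^ 6⌋₊ * (3 * x1)) * (Real.log x1) ^ U) * (N / (Real.log N) ^ U) :=
          mul_le_mul_of_nonneg_left h2 hnn
      _ ≤ _ := by
          apply mul_le_mul_of_nonneg_right _ h3
          linarith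

end Pool.Agent.Results.MP_188a10_nt.FiveFactors
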