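import Pool.Agent.Y866.PP.Dense
import Pool.Agent.Y677.RSZ.Top

/-!
# Weighted form: progressions in dense sets of primes, in the residue classes to moduli up to `N ^ θ`, `θ < 5/9`

The level of distribution `5/9` for arbitrary sets of primes (starting files) and Szemerédi's theorem
relative to sifted sets (`Pool.Agent.Y677.RSZ.eng_all`, of the team), applied in every residue class.
From Mathlib: `Nat.totient`: Euler's function; `d.primeFactors.card`: the number `ν(d)` of the distinct prime factors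
of `d`; `[ZMOD d]`: congruence modulo `d`.
-/

set_option autoImplicit false
set_option maxHeartbeats 4000000

namespace Pool.Agent.Results.MP_188a10_nt.ProgressionsInDenseSets

open Finset

/-- squarefree `d` with a divisor `s`, `d² N^(δ-1) ≤ s ≤ N^(4-δ) d^(-7)` -/
def Factorable (N : ℕ) (δ : ℝ) (d : ℕ) : Prop :=
  Squarefree d ∧ ∃ s : ℕ, s ∣ d ∧ (d : ℝ) ^ 2 * (N : ℝ) ^ (δ - 1) ≤ s ∧
    (s : ℝ) * (d : ℝ) ^ 7 ≤ (N : ℝ) ^ (4 - δ)

open Classical in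
/-- the moduli `1 < d ≤ N^θ` all of whose prime factors exceed `N^ε`, and which are factorable (with
the parameter `ε'`) if they exceed `N^(51/100)` -/
noncomputable def moduli (N : ℕ) (θ ε ε' : ℝ) : Finset ℕ :=
  (Icc 1 ⌊(N : ℝ) ^ θ⌋₊).filter (fun d : ℕ =>
    1 < d ∧ (∀ p : ℕ, p.Prime → p ∣ d → (N : ℝ) ^ ε < (p : ℝ)) ∧
      ((d : ℝ) ≤ (N : ℝ) ^ (51 / 100 : ℝ) ∨ Factorable N ε' d))

/-- The moduli have at most `θ / ε` prime factors. -/
lemma few (N d : ℕ) (hN : 2 ≤ N) (θ ε ε' : ℝ) (hε : 0 < ε) (hd : d ∈ moduli N θ ε ε') :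
    d.primeFactors.card ≤ ⌈θ / ε⌉₊ := by
  classical
  obtain ⟨hd1, hd2, hd3, -⟩ := Finset.mem_filter.1 hd
  have hd0 : 1 ≤ d := (Finset.mem_Icc.1 hd1).1
  have hN1 : (1 : ℝ) < N := by exact_mod_cast (by omega : 1 < N)
  have hNθ : (0 : ℝ) ≤ (N : ℝ) ^ θ := by positivity
  have hdle : (d : ℝ) ≤ (N : ℝ) ^ θ :=
    le_trans (Nat.cast_le.2 (Finset.mem_Icc.1 hd1).2) (Nat.floor_le hNθ)
  have h1 : ((N : ℝ) ^ ε) ^ d.primeFactors.card ≤ (N : ℝ) ^ θ := by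
    calc ((N : ℝ) ^ ε) ^ d.primeFactors.card = ∏ _p ∈ d.primeFactors, (N : ℝ) ^ ε := by
          rw [Finset.prod_const]
      _ ≤ ∏ p ∈ d.primeFactors, (p : ℝ) := by
          apply Finset.prod_le_prod
          · intro p _; positivity
          · intro p hp
            exact le_of_lt (hd3 p (Nat.prime_of_mem_primeFactors hp) (Nat.dvd_of_mem_primeFactors hp))
      _ = ((∏ p ∈ d.primeFactors, p : ℕ) : ℝ) := by push_cast; rfl
      _ ≤ (d : ℝ) := Nat.cast_le.2 (Nat.le_of_dvd (by omega) (Nat.prod_primeFactors_dvd d))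
      _ ≤ (N : ℝ) ^ θ := hdle
  rw [← Real.rpow_natCast, ← Real.rpow_mul (by positivity)] at h1
  have h2 : ε * d.primeFactors.card ≤ θ := (Real.rpow_le_rpow_left_iff hN1).1 h1
  have h3 : (d.primeFactors.card : ℝ) ≤ θ / ε := by
    rw [le_div_iff₀ hε]; linarith
  exact Nat.cast_le.1 (le_trans h3 (Nat.le_ceil _))

/-- Let `k ≥ 1`, `θ < 5/9`, `ε, ε' > 0` and `δ, κ > 0`. There are `B` and `C` such that for every large
`N` and EVERY set `P` of at least `δ N / log N` primes up to `N` the following holds for all residues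
`a`, `|a| ≤ N`, with at most `C` exceptions: for all the moduli `d ≤ N ^ θ` described above, outside a
set `D` of moduli with `∑_{d ∈ D} 3 ^ ν(d) / φ(d) ≤ κ`, the set `P` contains a progression of `k` primes
`p, p + d r, ..., p + (k - 1) d r`, all of them `≡ a (mod d)`, with `1 ≤ r ≤ (log N) ^ B`. -/
theorem result (k : ℕ) (θ ε ε' δ κ : ℝ) (hθ : θ < 5 / 9) (hε : 0 < ε) (hε' : 0 < ε') (hδ : 0 < δ)
    (hκ : 0 < κ) :
    ∃ B C N₀ : ℕ, ∀ N : ℕ, N₀ ≤ N → ∀ P : Finset ℕ, (∀ p ∈ P, p.Prime ∧ p ≤ N) →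
      δ * (N / Real.log N) ≤ P.card →
      ∃ E : Finset ℤ, E.card ≤ C ∧ ∀ a : ℤ, |a| ≤ N → a ∉ E →
        ∃ D ⊆ moduli N θ ε ε',
          ∑ d ∈ D, (3 : ℝ) ^ d.primeFactors.card / (Nat.totient d : ℝ) ≤ κ ∧
          ∀ d ∈ moduli N θ ε ε', d ∉ D → ∃ p r : ℕ, 1 ≤ r ∧ (r : ℝ) ≤ Real.log N ^ B ∧
            ∀ j < k, p + j * (d * r) ∈ P ∧ ((p + j * (d * r) : ℕ) : ℤ) ≡ a [ZMOD d] := by
  have h3 : (0 : ℝ) < 3 ^ ⌈θ / ε⌉₊ := by positivity
  obtain ⟨B, C, N₀, h⟩ := Pool.Agent.Y866.PP.dense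
    (Pool.Agent.Y866.PP.prog_of_eng Pool.Agent.Y677.RSZ.eng_all) k θ ε ε' δ (κ / 3 ^ ⌈θ / ε⌉₊) hθ hε hε' hδ
    (div_pos hκ h3)
  refine ⟨B, C, max N₀ 2, fun N hN P hP hPc => ?_⟩
  obtain ⟨E, hE, h1⟩ := h N (le_trans (le_max_left _ _) hN) P hP hPc
  refine ⟨E, hE, fun a ha haE => ?_⟩
  obtain ⟨D, hD, hD1, h2⟩ := h1 a ha haE
  refine ⟨D, hD, ?_, fun d hd hdD => ?_⟩
  · calc ∑ d ∈ D, (3 : ℝ) ^ d.primeFactors.card / (Nat.totient d : ℝ)
        ≤ ∑ d ∈ D, (3 : ℝ) ^ ⌈θ / ε⌉₊ * ((1 : ℝ) / (Nat.totient d : ℝ)) := by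
          apply Finset.sum_le_sum
          intro d hd
          have hf := few N d (le_trans (le_max_right _ _) hN) θ ε ε' hε (hD hd)
          rw [mul_one_div]
          exact div_le_div_of_nonneg_right (pow_le_pow_right₀ (by norm_num) hf) (by positivity)
      _ = 3 ^ ⌈θ / ε⌉₊ * ∑ d ∈ D, (1 : ℝ) / (Nat.totient d : ℝ) := by rw [Finset.mul_sum]
      _ ≤ 3 ^ ⌈θ / ε⌉₊ * (κ / 3 ^ ⌈θ / ε⌉₊) := mul_le_mul_of_nonneg_left hD1 h3.le
      _ = κ := mul_div_cancel₀ κ h3.ne'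
  obtain ⟨p, r, hr1, hr2, hp, h3⟩ := h2 d hd hdD
  refine ⟨p, r, hr1, hr2, fun j hj => ⟨h3 j hj, ?_⟩⟩
  refine Int.ModEq.trans ?_ hp
  rw [Int.modEq_iff_dvd]
  push_cast
  exact ⟨-(j * r), by ring⟩

end Pool.Agent.Results.MP_188a10_nt.ProgressionsInDenseSets
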