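import Pool.Agent.Y885.LD4

/-!
# Weighted level of distribution, almost the full range: the residues are random sums with up to two fifths of the
scales missing

From Mathlib: `ArithmeticFunction.vonMangoldt`: the function `Λ`; `Nat.totient`: Euler's function.
-/

set_option autoImplicit false

namespace Pool.Agent.Results.MP_188a10_nt.RandomSumResidues

open Finset

/-- `E(x; m, a) = ψ(x; m, a) - x / φ(m)`, where `ψ(x; m, a)` is the sum of `Λ(n)` over the `n ≤ x` with
`n ≡ a (mod m)`. -/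
noncomputable def E (x m a : ℕ) : ℝ :=
  ∑ n ∈ (Icc 1 x).filter (fun n : ℕ => n ≡ a [MOD m]), ArithmeticFunction.vonMangoldt n - (x : ℝ) / Nat.totient m

/-- `τ(m)`: the number of the divisors of `m`. In particular `τ(m) ^ 2 ≥ 3 ^ ν(m)`, where `ν(m)` is the number of
the prime factors of `m`. -/
noncomputable def τ (m : ℕ) : ℝ := m.divisors.card

/-- The sum of `λ(m) E(x(m); m, a)` over the `m ≤ Q` coprime to `a`. -/
noncomputable def weighted (lam : ℕ → ℝ) (x : ℕ → ℕ) (Q a : ℕ) : ℝ :=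
  ∑ m ∈ (Icc 1 Q).filter (fun m : ℕ => a.Coprime m), lam m * E (x m) m a

/-- The set `J` of scales below `k` is rich: it contains more than three fifths of all the scales, more than one half
of the `m` lowest scales, and a positive proportion of the `m` highest scales (the last two conditions are
void for `m ≤ D log k`). -/
structure Rich (δ : ℝ) (D k : ℕ) (J : Finset ℕ) : Prop where
  lt : ∀ j ∈ J, j < k
  all : (3 / 5 + δ) * k ≤ (J.card : ℝ)
  low : ∀ m ≤ k, (1 / 2 + δ) * m ≤ ((J.filter fun j => j < m).card : ℝ) + D * Real.log k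
  high : ∀ m ≤ k, δ * m ≤ ((J.filter fun j => k - m ≤ j).card : ℝ) + D * Real.log k

open Classical in
/-- The expectation of `F` if the `x j`, for `j < k`, are independent random integers, where `x j` takes its values in
the finite set `σ j`, and the value `v` with the probability `p j v`. -/
noncomputable def Expect (k : ℕ) (σ : ℕ → Finset ℤ) (p : ℕ → ℤ → ℝ) (F : (Fin k → ℤ) → ℝ) : ℝ :=
  ∑ x ∈ Fintype.piFinset (fun j : Fin k => σ j), (∏ j : Fin k, p j (x j)) * F x

open Classical in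
/-- The probability of the event `A`. -/
noncomputable def Prob (k : ℕ) (σ : ℕ → Finset ℤ) (p : ℕ → ℤ → ℝ) (A : (Fin k → ℤ) → Prop) : ℝ :=
  Expect k σ p (fun x => if A x then 1 else 0)

/-- The random residue `a = c + ∑ j, x j`. -/
def res {k : ℕ} (c : ℤ) (x : Fin k → ℤ) : ℤ := c + ∑ j, x j

open Classical in
/-- Let `b ≥ 2`, `B ≥ 1`, `D`, `T`, `U`, `η > 0` and `δ > 0` be fixed. Then there is a constant `C` with the following
property. Let `k` be large, and let `J` be an arbitrary rich set of scales below `k`. Let the `x j` (`j < k`) be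
arbitrary independent random integers with `|x j| ≤ B b ^ j` such that, for all `j` in `J`, no interval of the length
`b ^ j / B` contains `x j` with a probability larger than `1 - η` (nothing is assumed for the other `j`: these `x j` may
be constants). Let `|c| ≤ B b ^ k` be an arbitrary integer, `a = c + ∑ j, x j`, let `b ^ k / B ≤ N ≤ B b ^ k` and
`Q ≤ N / exp (C log ^ 2 k)`; thus `Q = N ^ (1 - o(1))`.

(1) For arbitrary coefficients `λ(m)` with `|λ(m)| ≤ (τ(m) k) ^ T` (e.g. `|λ(m)| ≤ 3 ^ ν(m)`, if `T = 2`), the probability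
that `a > 0` and that the sum of `λ(m) E(x; m, a)` over the `m ≤ Q` coprime to `a` is larger than `N / k ^ U` in
absolute value for SOME `x ≤ B N` is at most `1 / k ^ U`.

(2) The same holds for the sums of `λ(m) E(x(m); m, a)`, if `x(m) ≤ B N` is an arbitrary function of the modulus.

(3) For arbitrary random coefficients `|w| ≤ k ^ T` (arbitrary functions of the `x j`) and arbitrary `x(m) ≤ B N`, the
sum over ALL `m ≤ Q` of `τ(m) ^ T` times the ABSOLUTE VALUE of the expectation of `w E(x(m); m, a)`, restricted to the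
`a` which are positive and coprime to `m`, is at most `N / k ^ U`. -/
theorem result (b B D T U : ℕ) (hb : 2 ≤ b) (hB : 1 ≤ B) (η δ : ℝ) (hη : 0 < η) (hδ : 0 < δ) :
    ∃ C k₀ : ℕ, ∀ k : ℕ, k₀ ≤ k → ∀ J : Finset ℕ, Rich δ D k J → ∀ (σ : ℕ → Finset ℤ) (p : ℕ → ℤ → ℝ),
      (∀ j < k, (∀ x ∈ σ j, 0 ≤ p j x ∧ |x| ≤ (B : ℤ) * (b : ℤ) ^ j) ∧ ∑ x ∈ σ j, p j x = 1) →
      (∀ j ∈ J, ∀ y : ℤ, ∑ x ∈ (σ j).filter (fun x => y ≤ x ∧ (B : ℤ) * (x - y) ≤ (b : ℤ) ^ j), p j x ≤ 1 - η) →
      ∀ c : ℤ, |c| ≤ (B : ℤ) * (b : ℤ) ^ k → ∀ N : ℕ, b ^ k ≤ B * N → N ≤ B * b ^ k →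
      ∀ Q : ℕ, (Q : ℝ) ≤ N / Real.exp (C * Real.log k ^ 2) →
      (∀ lam : ℕ → ℝ, (∀ m, |lam m| ≤ (τ m * k) ^ T) →
        Prob k σ p (fun ω => 0 < res c ω ∧ ∃ x ≤ B * N, (N : ℝ) / (k : ℝ) ^ U < |weighted lam (fun _ => x) Q (res c ω).toNat|) ≤
          1 / (k : ℝ) ^ U ∧
        ∀ x : ℕ → ℕ, (∀ m, x m ≤ B * N) →
        Prob k σ p (fun ω => 0 < res c ω ∧ (N : ℝ) / (k : ℝ) ^ U < |weighted lam x Q (res c ω).toNat|) ≤ 1 / (k : ℝ) ^ U) ∧
      (∀ w : (Fin k → ℤ) → ℝ, (∀ ω, |w ω| ≤ (k : ℝ) ^ T) → ∀ x : ℕ → ℕ, (∀ m, x m ≤ B * N) →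
        ∑ m ∈ Icc 1 Q, τ m ^ T * |Expect k σ p (fun ω => if 0 < res c ω ∧ (res c ω).toNat.Coprime m then
          w ω * E (x m) m (res c ω).toNat else 0)| ≤ N / (k : ℝ) ^ U) := by
  classical
  obtain ⟨C, k₀, h0⟩ := Pool.Agent.Y885.rs_levels b B D T U hb hB η δ hη hδ
  refine ⟨C, k₀, fun k hk J hJ σ p hσ hp c hc N hN1 hN2 Q hQ => ?_⟩
  have hQ' : (Q : ℝ) * Real.exp ((C : ℝ) * Real.log k ^ 2) ≤ N := by
    rwa [le_div_iff₀ (Real.exp_pos _)] at hQ
  obtain ⟨h1, h2⟩ := h0 k hk J σ p c ⟨hJ.lt, hJ.low, hJ.high, hJ.all⟩ hσ hp hc N hN1 hN2 Q hQ'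
  have hProb : ∀ A : (Fin k → ℤ) → Prop, Prob k σ p A =
      ∑ ω ∈ Fintype.piFinset (fun j : Fin k => σ j), (if A ω then ∏ j : Fin k, p j (ω j) else 0) := by
    intro A
    unfold Prob Expect
    apply sum_congr rfl
    intro ω _
    show (∏ j : Fin k, p j (ω j)) * (if A ω then 1 else 0) = _
    by_cases hA : A ω
    · rw [if_pos hA, if_pos hA, mul_one]
    · rw [if_neg hA, if_neg hA, mul_zero]
  have hE : ∀ x m a, Pool.Agent.W93.LV.Fu (fun n => ArithmeticFunction.vonMangoldt n) x m a - (x : ℝ) / Nat.totient m = E x m a :=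
    fun _ _ _ => rfl
  refine ⟨fun lam hlam => ?_, fun w hw x hx => ?_⟩
  · obtain ⟨r1, r2⟩ := h1 lam hlam
    constructor
    · rw [hProb]
      exact r1 _ _ (fun ω h => h)
    · intro x hx
      rw [hProb]
      exact r2 x hx _ _ (fun ω h => h)
  · refine le_trans (le_of_eq ?_) (h2 w hw x hx (fun _ => Classical.decPred _))
    apply sum_congr rfl
    intro m _
    unfold Expect
    congr 2
    rw [sum_filter]
    apply sum_congr rfl
    intro ω _
    show (∏ j : Fin k, p j (ω j)) * (if 0 < c + ∑ j, ω j ∧ (c + ∑ j, ω j).toNat.Coprime m then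
      w ω * E (x m) m (c + ∑ j, ω j).toNat else 0) = _
    by_cases h : 0 < c + ∑ j, ω j ∧ (c + ∑ j, ω j).toNat.Coprime m
    · rw [if_pos h, if_pos h, hE]
    · rw [if_neg h, if_neg h, mul_zero]

end Pool.Agent.Results.MP_188a10_nt.RandomSumResidues
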